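import Pool.Agent.ARB.Defs

/-!
# Algebraically alternating links: the definitions used in the statement

Diagrams in Morse position are words of elementary pieces, read from bottom to top (`Word`, see
`ARB/Defs.lean`); `Iso n` is isotopy (planar isotopy and Reidemeister moves) of words on `n` strands.
-/

set_option autoImplicit false

namespace Pool.ALT

open Pool.Agent.ARB Pool.Agent.Helper2

/-- number of crossings -/
def nX : Word → ℕ
  | [] => 0
  | ⟨.X _, _⟩ :: w => nX w + 1
  | ⟨.U, _⟩ :: w => nX w
  | ⟨.N, _⟩ :: w => nX w

/-- The Kauffman state given by `a`: the `k`-th crossing (from below) is smoothed by an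
`A`-smoothing if `a k = true`, and by a `B`-smoothing if `a k = false`. The smoothing is vertical
(the crossing is removed) or horizontal (replaced by a cap and a cup); for `pX i true` the
`A`-smoothing is the vertical one, for `pX i false` the `B`-smoothing is. -/
def state : (ℕ → Bool) → Word → Word
  | _, [] => []
  | a, ⟨.X p, i⟩ :: w =>
      if a 0 = p then state (fun k => a (k + 1)) w
      else pN i :: pU i :: state (fun k => a (k + 1)) w
  | a, ⟨.U, i⟩ :: w => pU i :: state a w
  | a, ⟨.N, i⟩ :: w => pN i :: state a w

/-- the diagram of a word (directions of the cups are arbitrary) -/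
def toD (w : Word) : List Slice :=
  w.map fun s => match s.k with
    | .U => .cup s.i true
    | .N => .cap s.i
    | .X p => .cross s.i p

/-- number of closed curves of a closed word -/
def loops (w : Word) : ℕ := curves (toD w)

/-- Alternating leaves: diagrams `w` of tangles with four ends, in Morse position, which are
alternating (the sign of a crossing depends only on the parity of its position) and such that the
two closures are prime: for every state except the two extreme ones, the numbers of closed
curves of the state and of the opposite state add up to at most the number of crossings. -/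
structure IsLeaf (w : Word) : Prop where
  ok : Ok w 2 2
  two : 2 ≤ nX w
  alt : ∃ e : Bool, ∀ (p : Bool) (i : ℕ), pX i p ∈ w → (p = e ↔ i % 2 = 0)
  prN : ∀ a : ℕ → Bool, (∃ k < nX w, a k = true) → (∃ k < nX w, a k = false) →
    loops (NW (state a w)) + loops (NW (state (fun k => !a k) w)) ≤ nX w
  prD : ∀ a : ℕ → Bool, (∃ k < nX w, a k = true) → (∃ k < nX w, a k = false) →
    loops (DW (state a w)) + loops (DW (state (fun k => !a k) w)) ≤ nX w

/-- The numerator closure of the sum of `w` and one crossing has the bracket of the unknot (up to a
unit `± A ^ k`) but is not isotopic to the circle. -/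
def BadX (w : Word) : Prop := ∃ p : Bool,
  (∃ k : ℤ, bracket (toD (NW (w ++ [pX 0 p]))) = LaurentPolynomial.T k ∨
    bracket (toD (NW (w ++ [pX 0 p]))) = -LaurentPolynomial.T k) ∧
  ¬ Iso 0 (NW (w ++ [pX 0 p])) O1

end Pool.ALT

namespace Pool.Agent.ALT

open Pool.Agent.ARB Pool.Agent.Helper2

/-- Arborescent (Conway) combinations of leaves: obtained from crossings and from tangles with four
ends, the leaves, by sums and rotations. -/
inductive Tree where
  | zero
  | cross (p : Bool)
  | leaf (w : Word)
  | sum (S T : Tree)
  | rot (T : Tree)

/-- the diagram of a combination -/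
def Tree.word : Tree → Word
  | .zero => []
  | .cross p => [pX 0 p]
  | .leaf w => w
  | .sum S T => S.word ++ T.word
  | .rot T => rotW T.word

/-- `w` is one of the leaves -/
def Tree.Leaf (w : Word) : Tree → Prop
  | .zero => False
  | .cross _ => False
  | .leaf w' => w = w'
  | .sum S T => S.Leaf w ∨ T.Leaf w
  | .rot T => T.Leaf w

/-- two 1-1 tangles next to each other -/
def bd (J J' : Word) : Word := J ++ sh 1 J'

/-- `D` is isotopic to the numerator closure of the sum of `w` and a rational tangle, with 1-1
tangles `J0, ..., J3` on the four strands which join them. -/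
def OneLeaf (D w : Word) : Prop := ∃ R : Arb, Rat R ∧ ∃ J0 J1 J2 J3 : Word, Ok J0 1 1 ∧
  Ok J1 1 1 ∧ Ok J2 1 1 ∧ Ok J3 1 1 ∧ Iso 0 D (NW (w ++ (bd J0 J1 ++ (R.word ++ bd J2 J3))))

end Pool.Agent.ALT
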