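import Pool.Agent.ALT.Glue.Leaf
import Pool.Agent.ALT.Mo.All
import Pool.Agent.ALT.Tu.All
import Pool.Agent.ALT.S0.All
import Pool.Agent.ALZ.ALL
import Pool.Agent.ALS.ALL
import Pool.Agent.ALT.Md.Fin

/-!
# ALT: leaves have all invariants which are used in the induction
-/

set_option autoImplicit false

namespace Pool.Agent.ALT

open Pool.Agent.ARB

/-- a leaf is a leaf in the sense of the induction block -/
theorem all_leaf (w : Word) (hw : Pool.ALT.IsLeaf w) : ∃ L : Lf, L.word = w :=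
  Pool.ALT.thm_Leaf Pool.ALT.mo_LF Pool.ALT.mo_PB Pool.ALT.all_FN Pool.ALT.all_PQ Pool.ALT.all_DS
    Pool.ALT.all_DN Pool.ALT.all_DI ALZ.zfn Pool.ALT.all_JL Pool.ALT.all_S0 Pool.ALT.all_M0
    (ALS.sz Pool.ALT.all_FN Pool.ALT.all_PQ) (ALS.z3a Pool.ALT.all_FN Pool.ALT.all_PQ) w hw

end Pool.Agent.ALT
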