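import Pool.Agent.ALT.Statement

/-!
# Bad leaves

This condition is used in the proofs only; see `Pool.ALT.BadX` for the stronger form in the results.
-/

set_option autoImplicit false

namespace Pool.Agent.ALT

open Pool.Agent.ARB Pool.Agent.Helper2

/-- The numerator closure of the sum of `w` and some rational tangle has the bracket of the unknot
(up to a unit `± A ^ k`) but is not isotopic to the circle. -/
def BadLeaf (w : Word) : Prop := ∃ R : Arb, Rat R ∧
  (∃ k : ℤ, bracket (Pool.ALT.toD (NW (w ++ R.word))) = LaurentPolynomial.T k ∨
    bracket (Pool.ALT.toD (NW (w ++ R.word))) = -LaurentPolynomial.T k) ∧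
  ¬ Iso 0 (NW (w ++ R.word)) O1

end Pool.Agent.ALT
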